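import Mathlib

/-!
General lemmas for the comparison of the numbers of directed cycles of a digraph before and after
the reversal of one arc.
-/

set_option autoImplicit false
set_option linter.unusedSectionVars false

namespace Pool.Agent.Lib_helper63.AdamCount

open Finset

section general

variable {V A : Type} [DecidableEq V] [DecidableEq A]

/-- Balanced arc sets: in-degree equals out-degree at every vertex. -/
def Bal (s t : A → V) (S : Finset A) : Prop :=
  ∀ x, (S.filter (fun a => s a = x)).card = (S.filter (fun a => t a = x)).card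

/-- Directed cycles of the digraph with arc set `E`, as minimal nonempty balanced arc sets. -/
def IsCyc (s t : A → V) (E S : Finset A) : Prop :=
  S ⊆ E ∧ S.Nonempty ∧ Bal s t S ∧ ∀ T ⊆ S, T.Nonempty → Bal s t T → T = S

lemma card_filter_toFinset (f : A → V) (L : List A) (hL : L.Nodup) (x : V) :
    (L.toFinset.filter (fun a => f a = x)).card = (L.map f).count x := by
  rw [List.count_eq_countP, List.countP_map, List.countP_eq_length_filter]
  have h1 : L.toFinset.filter (fun a => f a = x) = (L.filter (fun a => f a = x)).toFinset := by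
    ext a; simp
  rw [h1, List.toFinset_card_of_nodup (hL.filter _)]
  congr 1

lemma bal_of_perm (s t : A → V) (L : List A) (hL : L.Nodup) (h : (L.map s).Perm (L.map t)) :
    Bal s t L.toFinset := by
  intro x
  rw [card_filter_toFinset s L hL, card_filter_toFinset t L hL]
  exact h.count_eq x

lemma bal_congr (s t s' t' : A → V) (S : Finset A) (hs : ∀ a ∈ S, s a = s' a)
    (ht : ∀ a ∈ S, t a = t' a) : Bal s t S ↔ Bal s' t' S := by
  have h1 : ∀ x, S.filter (fun a => s a = x) = S.filter (fun a => s' a = x) := by
    intro x
    apply Finset.filter_congr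
    intro a ha
    rw [hs a ha]
  have h2 : ∀ x, S.filter (fun a => t a = x) = S.filter (fun a => t' a = x) := by
    intro x
    apply Finset.filter_congr
    intro a ha
    rw [ht a ha]
  unfold Bal
  simp only [h1, h2]

lemma isCyc_congr (s t s' t' : A → V) (E S : Finset A) (hs : ∀ a ∈ S, s a = s' a)
    (ht : ∀ a ∈ S, t a = t' a) : IsCyc s t E S ↔ IsCyc s' t' E S := by
  unfold IsCyc
  rw [bal_congr s t s' t' S hs ht]
  have h : ∀ T ⊆ S, (Bal s t T ↔ Bal s' t' T) := fun T hT =>
    bal_congr s t s' t' T (fun a ha => hs a (hT ha)) (fun a ha => ht a (hT ha))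
  constructor
  · rintro ⟨h1, h2, h3, h4⟩
    exact ⟨h1, h2, h3, fun T hT hn hb => h4 T hT hn ((h T hT).2 hb)⟩
  · rintro ⟨h1, h2, h3, h4⟩
    exact ⟨h1, h2, h3, fun T hT hn hb => h4 T hT hn ((h T hT).1 hb)⟩

lemma exists_out (s t : A → V) (S : Finset A) (hS : Bal s t S) (a : A) (ha : a ∈ S) :
    ∃ b ∈ S, s b = t a := by
  have h1 : 0 < (S.filter (fun b => t b = t a)).card :=
    Finset.card_pos.2 ⟨a, Finset.mem_filter.2 ⟨ha, rfl⟩⟩
  rw [← hS (t a)] at h1
  obtain ⟨b, hb⟩ := Finset.card_pos.1 h1
  rw [Finset.mem_filter] at hb
  exact ⟨b, hb.1, hb.2⟩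

end general

section count

variable {V : Type} [DecidableEq V]

/-- Number of simple paths from `x` to `t` that avoid the list `r` (with `f` steps of fuel). -/
def cntL (nb : V → List V) (t : V) : ℕ → V → List V → ℕ
  | 0, _, _ => 0
  | f + 1, x, r => if x = t then 1 else
      ((nb x).map (fun y => if y ∈ r then 0 else cntL nb t f y (y :: r))).sum

/-- The arcs of the path whose vertices, from the last to the first, are the entries of `r`. -/
def arcsR (r : List V) : List (V × V) := r.tail.zip r

lemma arcsR_cons (x : V) (r : List V) (y : V) : arcsR (y :: x :: r) = (x, y) :: arcsR (x :: r) := by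
  simp [arcsR]

lemma map_fst_arcsR (r : List V) : (arcsR r).map Prod.fst = r.tail := by
  unfold arcsR
  rw [List.map_fst_zip]
  simp

lemma map_snd_arcsR (r : List V) : (arcsR r).map Prod.snd = r.dropLast := by
  induction r with
  | nil => simp [arcsR]
  | cons x r ih =>
    cases r with
    | nil => simp [arcsR]
    | cons y r => rw [arcsR_cons, List.map_cons, ih]; simp

/-- Closing a simple path gives a balanced set. -/
lemma bal_close (x : V) (r : List V) (hr : (x :: r).Nodup) :
    Bal Prod.fst Prod.snd
      ((x, (x :: r).getLast (List.cons_ne_nil _ _)) :: arcsR (x :: r)).toFinset := by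
  have hfst : ((x, (x :: r).getLast (List.cons_ne_nil _ _)) :: arcsR (x :: r)).map Prod.fst =
      x :: r := by
    rw [List.map_cons, map_fst_arcsR]; simp
  have hsnd : ((x, (x :: r).getLast (List.cons_ne_nil _ _)) :: arcsR (x :: r)).map Prod.snd =
      (x :: r).getLast (List.cons_ne_nil _ _) :: (x :: r).dropLast := by
    rw [List.map_cons, map_snd_arcsR]
  apply bal_of_perm
  · apply List.Nodup.of_map Prod.fst
    rw [hfst]; exact hr
  · rw [hfst, hsnd]
    conv_lhs => rw [← List.dropLast_append_getLast (List.cons_ne_nil x r)]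
    exact List.perm_append_singleton _ _

lemma sum_toFinset_filter (L : List V) (hL : L.Nodup) (r : List V) (g : V → ℕ) :
    ∑ y ∈ L.toFinset.filter (fun y => y ∉ r), g y =
      (L.map (fun y => if y ∈ r then 0 else g y)).sum := by
  rw [Finset.sum_filter, ← List.sum_toFinset _ hL]
  refine Finset.sum_congr rfl ?_
  intro y _
  by_cases h : y ∈ r <;> simp [h]

end count

section upper

variable {V : Type} [DecidableEq V] [Fintype V]

/-- The directed cycles through `e` that contain the arcs of the given path `r`. -/
noncomputable def Fam (E : Finset (V × V)) (e : V × V) (r : List V) : Finset (Finset (V × V)) :=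
  (Set.toFinite {S : Finset (V × V) |
    IsCyc Prod.fst Prod.snd E S ∧ e ∈ S ∧ ∀ a ∈ arcsR r, a ∈ S}).toFinset

lemma mem_Fam (E : Finset (V × V)) (e : V × V) (r : List V) (S : Finset (V × V)) :
    S ∈ Fam E e r ↔ IsCyc Prod.fst Prod.snd E S ∧ e ∈ S ∧ ∀ a ∈ arcsR r, a ∈ S := by
  unfold Fam
  rw [Set.Finite.mem_toFinset]
  rfl

lemma card_Fam_le (nb : V → List V) (hnb : ∀ x, (nb x).Nodup) (E : Finset (V × V))
    (hE : ∀ x y, (x, y) ∈ E → y ∈ nb x) (u v : V) (f : ℕ) :
    ∀ (x : V) (r : List V), (x :: r).Nodup →
      (x :: r).getLast (List.cons_ne_nil _ _) = v →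
      Fintype.card V < f + (x :: r).length →
      (Fam E (u, v) (x :: r)).card ≤ cntL nb u f x (x :: r) := by
  induction f with
  | zero =>
    intro x r hnd _ hlt
    exfalso
    have := List.Nodup.length_le_card hnd
    omega
  | succ f ih =>
    intro x r hnd hlast hlt
    rw [cntL]
    split_ifs with hx
    · -- the path is closed by the arc `(u, v)`
      rw [Finset.card_le_one]
      have key : ∀ S ∈ Fam E (u, v) (x :: r), ((x, (x :: r).getLast (List.cons_ne_nil _ _)) ::
          arcsR (x :: r)).toFinset = S := by
        intro S hS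
        obtain ⟨hcyc, he, harcs⟩ := (mem_Fam _ _ _ _).1 hS
        apply hcyc.2.2.2
        · intro a ha
          rw [List.mem_toFinset, List.mem_cons] at ha
          rcases ha with ha | ha
          · rw [ha, hlast, hx]; exact he
          · exact harcs a ha
        · exact ⟨_, List.mem_toFinset.2 List.mem_cons_self⟩
        · exact bal_close x r hnd
      intro S hS T hT
      rw [← key S hS, ← key T hT]
    · rw [← sum_toFinset_filter (nb x) (hnb x) (x :: r) (fun y => cntL nb u f y (y :: x :: r))]
      have hsub : Fam E (u, v) (x :: r) ⊆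
          ((nb x).toFinset.filter (fun y => y ∉ x :: r)).biUnion
            (fun y => Fam E (u, v) (y :: x :: r)) := by
        intro S hS
        obtain ⟨hcyc, he, harcs⟩ := (mem_Fam _ _ _ _).1 hS
        -- an arc of `S` into `x`
        obtain ⟨a, haS, hax⟩ : ∃ a ∈ S, a.2 = x := by
          cases r with
          | nil => exact ⟨(u, v), he, by simpa using hlast.symm⟩
          | cons w r =>
            refine ⟨(w, x), harcs _ ?_, rfl⟩
            rw [arcsR_cons]
            exact List.mem_cons_self
        obtain ⟨b, hbS, hbx⟩ := exists_out Prod.fst Prod.snd S hcyc.2.2.1 a haS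
        obtain ⟨b1, y⟩ := b
        have hb1 : b1 = x := by rw [← hax]; exact hbx
        subst hb1
        have hynb : y ∈ nb b1 := hE _ _ (hcyc.1 hbS)
        have hyr : y ∉ b1 :: r := by
          intro hmem
          obtain ⟨s1, t1, hst⟩ := List.append_of_mem hmem
          -- the closed part
          have hw : ∃ w, s1 ++ [y] = b1 :: w := by
            cases s1 with
            | nil =>
              rw [List.nil_append, List.cons_eq_cons] at hst
              exact ⟨[], by rw [hst.1]; rfl⟩
            | cons c s1 =>
              rw [List.cons_append, List.cons_eq_cons] at hst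
              exact ⟨s1 ++ [y], by rw [hst.1]; rfl⟩
          obtain ⟨w, hw⟩ := hw
          have hsplit : b1 :: r = (b1 :: w) ++ t1 := by
            rw [← hw, hst]; simp
          have hwnd : (b1 :: w).Nodup := by
            rw [hsplit] at hnd
            exact (List.nodup_append.1 hnd).1
          have hwlast : (b1 :: w).getLast (List.cons_ne_nil _ _) = y := by
            have : (b1 :: w).getLast? = some y := by
              rw [← hw]; simp
            rw [List.getLast?_eq_getLast_of_ne_nil (List.cons_ne_nil _ _)] at this
            exact Option.some.inj this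
          have harcsw : ∀ a ∈ arcsR (b1 :: w), a ∈ arcsR (b1 :: r) := by
            have : ∀ (p q : List V), ∀ a ∈ arcsR p, a ∈ arcsR (p ++ q) := by
              intro p q
              induction p with
              | nil => intro a ha; simp [arcsR] at ha
              | cons c p ihp =>
                cases p with
                | nil => intro a ha; simp [arcsR] at ha
                | cons d p =>
                  intro a ha
                  rw [arcsR_cons, List.mem_cons] at ha
                  rw [List.cons_append, List.cons_append, arcsR_cons, List.mem_cons]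
                  rcases ha with ha | ha
                  · exact Or.inl ha
                  · exact Or.inr (ihp a ha)
            intro a ha
            rw [hsplit]
            exact this _ _ a ha
          have hSeq : ((b1, (b1 :: w).getLast (List.cons_ne_nil _ _)) ::
              arcsR (b1 :: w)).toFinset = S := by
            apply hcyc.2.2.2
            · intro a ha
              rw [List.mem_toFinset, List.mem_cons] at ha
              rcases ha with ha | ha
              · rw [ha, hwlast]; exact hbS
              · exact harcs a (harcsw a ha)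
            · exact ⟨_, List.mem_toFinset.2 List.mem_cons_self⟩
            · exact bal_close b1 w hwnd
          rw [← hSeq, List.mem_toFinset, List.mem_cons] at he
          rcases he with he | he
          · exact hx (Prod.ext_iff.1 he).1.symm
          · -- `v` is in the middle of `w`, but it is the last entry of the whole list
            have hvw : v ∈ (b1 :: w).dropLast := by
              rw [← map_snd_arcsR]
              exact List.mem_map.2 ⟨_, he, rfl⟩
            have hnd2 : ((b1 :: w).dropLast ++ ([y] ++ t1)).Nodup := by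
              have h1 : (b1 :: w).dropLast ++ ([y] ++ t1) = b1 :: r := by
                rw [hsplit, ← List.append_assoc]
                congr 1
                conv_rhs => rw [← List.dropLast_append_getLast (List.cons_ne_nil b1 w), hwlast]
              rw [h1]; exact hnd
            have hvlast : v ∈ [y] ++ t1 := by
              have h1 : b1 :: r = (b1 :: w).dropLast ++ ([y] ++ t1) := by
                rw [hsplit, ← List.append_assoc]
                congr 1
                conv_lhs => rw [← List.dropLast_append_getLast (List.cons_ne_nil b1 w), hwlast]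
              have h2 : (b1 :: r).getLast? = some v := by
                rw [List.getLast?_eq_getLast_of_ne_nil (List.cons_ne_nil _ _), hlast]
              rw [h1, List.getLast?_append_of_ne_nil _ (by simp)] at h2
              exact List.mem_of_getLast? h2
            exact (List.nodup_append.1 hnd2).2.2 v hvw v hvlast rfl
        rw [Finset.mem_biUnion]
        refine ⟨y, Finset.mem_filter.2 ⟨List.mem_toFinset.2 hynb, hyr⟩, (mem_Fam _ _ _ _).2
          ⟨hcyc, he, ?_⟩⟩
        intro a ha
        rw [arcsR_cons, List.mem_cons] at ha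
        rcases ha with ha | ha
        · rw [ha]; exact hbS
        · exact harcs a ha
      refine (Finset.card_le_card hsub).trans (Finset.card_biUnion_le.trans ?_)
      refine Finset.sum_le_sum ?_
      intro y hy
      rw [Finset.mem_filter] at hy
      refine ih y (x :: r) (List.nodup_cons.2 ⟨hy.2, hnd⟩) ?_ ?_
      · rw [List.getLast_cons (List.cons_ne_nil _ _)]; exact hlast
      · simp only [List.length_cons] at hlt ⊢
        omega

end upper

section lower

variable {V : Type} [DecidableEq V] [Fintype V]

/-- Tail of an arc after the reversal of `e`. -/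
def sE (e a : V × V) : V := (if a = e then a.swap else a).1

/-- Head of an arc after the reversal of `e`. -/
def tE (e a : V × V) : V := (if a = e then a.swap else a).2

lemma sE_self (e : V × V) : sE e e = e.2 := by simp [sE]
lemma tE_self (e : V × V) : tE e e = e.1 := by simp [tE]
lemma sE_of_ne (e a : V × V) (h : a ≠ e) : sE e a = a.1 := by simp [sE, h]
lemma tE_of_ne (e a : V × V) (h : a ≠ e) : tE e a = a.2 := by simp [tE, h]

/-- A path from `u` to `v` other than the arc `(u, v)` gives a directed cycle after the reversal
of that arc. -/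
lemma isCyc_close (E : Finset (V × V)) (u v : V) (hE : (u, v) ∈ E) (r : List V)
    (hnd : (v :: r).Nodup) (hlast : (v :: r).getLast (List.cons_ne_nil _ _) = u)
    (harcs : ∀ a ∈ arcsR (v :: r), a ∈ E) (hne : (u, v) ∉ arcsR (v :: r)) :
    IsCyc (sE (u, v)) (tE (u, v)) E (insert (u, v) (arcsR (v :: r)).toFinset) := by
  have hfst : ((u, v) :: arcsR (v :: r)).map (sE (u, v)) = v :: r := by
    rw [List.map_cons, sE_self]
    congr 1
    have : (arcsR (v :: r)).map (sE (u, v)) = (arcsR (v :: r)).map Prod.fst := by
      apply List.map_congr_left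
      intro a ha
      apply sE_of_ne
      rintro rfl
      exact hne ha
    rw [this, map_fst_arcsR]; simp
  have hsnd : ((u, v) :: arcsR (v :: r)).map (tE (u, v)) = u :: (v :: r).dropLast := by
    rw [List.map_cons, tE_self]
    congr 1
    have : (arcsR (v :: r)).map (tE (u, v)) = (arcsR (v :: r)).map Prod.snd := by
      apply List.map_congr_left
      intro a ha
      apply tE_of_ne
      rintro rfl
      exact hne ha
    rw [this, map_snd_arcsR]
  have hset : insert (u, v) (arcsR (v :: r)).toFinset = ((u, v) :: arcsR (v :: r)).toFinset := by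
    rw [List.toFinset_cons]
  rw [hset]
  have hLnd : ((u, v) :: arcsR (v :: r)).Nodup := by
    apply List.Nodup.of_map (sE (u, v))
    rw [hfst]; exact hnd
  refine ⟨?_, ⟨_, List.mem_toFinset.2 List.mem_cons_self⟩, ?_, ?_⟩
  · intro a ha
    rw [List.mem_toFinset, List.mem_cons] at ha
    rcases ha with ha | ha
    · rw [ha]; exact hE
    · exact harcs a ha
  · apply bal_of_perm _ _ _ hLnd
    rw [hfst, hsnd, ← hlast]
    conv_lhs => rw [← List.dropLast_append_getLast (List.cons_ne_nil v r)]
    exact List.perm_append_singleton _ _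
  · intro T hT hTn hTb
    apply Finset.Subset.antisymm hT
    -- the list of arcs and the list of vertices
    set L := (u, v) :: arcsR (v :: r) with hL
    set R := v :: r with hR
    have hlen : L.length = R.length := by
      have := congrArg List.length hfst
      simpa using this
    have hs : ∀ (i : ℕ) (hi : i < L.length), sE (u, v) L[i] = R[i]'(by omega) := by
      intro i hi
      have h1 : (L.map (sE (u, v)))[i]'(by simpa using hi) = R[i]'(by omega) := by
        simp only [hfst]
      rw [List.getElem_map] at h1
      exact h1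
    have hRlast : R[R.length - 1]'(by simp [hR]) = u := by
      rw [← hlast, List.getLast_eq_getElem]
    have ht0 : tE (u, v) (L[0]'(by simp [hL])) = u := by
      simp [hL, tE_self]
    have ht : ∀ (i : ℕ) (hi : i + 1 < L.length), tE (u, v) L[i + 1] = R[i]'(by omega) := by
      intro i hi
      have h1 : (L.map (tE (u, v)))[i + 1]'(by simpa using hi) =
          (u :: R.dropLast)[i + 1]'(by simp; omega) := by
        simp only [hsnd]
      rw [List.getElem_map] at h1
      rw [h1]
      simp
    have hsinj : ∀ a ∈ T, ∀ (i : ℕ) (hi : i < L.length), sE (u, v) a = R[i]'(by omega) →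
        a = L[i] := by
      intro a ha i hi h1
      have haL : a ∈ L := List.mem_toFinset.1 (hT ha)
      obtain ⟨j, hj, rfl⟩ := List.mem_iff_getElem.1 haL
      rw [hs j hj] at h1
      have hji : j = i := (List.Nodup.getElem_inj_iff hnd).1 h1
      subst hji
      rfl
    -- one step along the cycle
    have hstep : ∀ (i : ℕ) (hi : i + 1 < L.length), L[i + 1] ∈ T → L[i]'(by omega) ∈ T := by
      intro i hi hmem
      obtain ⟨b, hb, hbs⟩ := exists_out _ _ T hTb _ hmem
      rw [ht i hi] at hbs
      rw [← hsinj b hb i (by omega) hbs]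
      exact hb
    have hstep0 : L[0]'(by simp [hL]) ∈ T → L[L.length - 1]'(by simp [hL]) ∈ T := by
      intro hmem
      obtain ⟨b, hb, hbs⟩ := exists_out _ _ T hTb _ hmem
      have hRpos : 0 < R.length := by simp [hR]
      have hbs' : sE (u, v) b = R[R.length - 1]'(by omega) := by rw [hbs, ht0, hRlast]
      have := hsinj b hb (R.length - 1) (by omega) hbs'
      simp only [hlen]
      rw [← this]
      exact hb
    have hdown : ∀ (d i : ℕ) (hi : i + d < L.length), L[i + d] ∈ T → L[i]'(by omega) ∈ T := by
      intro d
      induction d with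
      | zero => intro i hi h; exact h
      | succ d ihd =>
        intro i hi h
        apply ihd i (by omega)
        exact hstep (i + d) (by omega) h
    obtain ⟨a, ha⟩ := hTn
    have haL : a ∈ L := List.mem_toFinset.1 (hT ha)
    obtain ⟨j, hj, rfl⟩ := List.mem_iff_getElem.1 haL
    have h0 : L[0]'(by simp [hL]) ∈ T := by
      have := hdown j 0 (by omega) (by simpa using ha)
      exact this
    have hlastT := hstep0 h0
    intro b hb
    obtain ⟨i, hi, rfl⟩ := List.mem_iff_getElem.1 (List.mem_toFinset.1 hb)
    apply hdown (L.length - 1 - i) i (by omega)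
    have : i + (L.length - 1 - i) = L.length - 1 := by omega
    simp only [this]
    exact hlastT

/-- The cycles through the reversed arc `e` that come from paths extending `r`. -/
noncomputable def Gam (E : Finset (V × V)) (e : V × V) (r : List V) : Finset (Finset (V × V)) :=
  (Set.toFinite {S : Finset (V × V) |
    IsCyc (sE e) (tE e) E S ∧ e ∈ S ∧ ∃ q : List V, (q ++ r).Nodup ∧
      S = insert e (arcsR (q ++ r)).toFinset}).toFinset

lemma mem_Gam (E : Finset (V × V)) (e : V × V) (r : List V) (S : Finset (V × V)) :
    S ∈ Gam E e r ↔ IsCyc (sE e) (tE e) E S ∧ e ∈ S ∧ ∃ q : List V, (q ++ r).Nodup ∧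
      S = insert e (arcsR (q ++ r)).toFinset := by
  unfold Gam
  rw [Set.Finite.mem_toFinset]
  rfl

lemma arcsR_append_right (q r : List V) : ∀ a ∈ arcsR r, a ∈ arcsR (q ++ r) := by
  induction q with
  | nil => intro a ha; exact ha
  | cons c q ih =>
    intro a ha
    have h1 := ih a ha
    cases hqr : q ++ r with
    | nil => rw [hqr] at h1; simp [arcsR] at h1
    | cons d l =>
      rw [hqr] at h1
      rw [List.cons_append, hqr, arcsR_cons]
      exact List.mem_cons_of_mem _ h1

lemma arcsR_fst_inj (R : List V) (hR : R.Nodup) (a b : V × V) (ha : a ∈ arcsR R)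
    (hb : b ∈ arcsR R) (h : a.1 = b.1) : a = b := by
  have hnd : ((arcsR R).map Prod.fst).Nodup := by
    rw [map_fst_arcsR]; exact hR.tail
  exact List.inj_on_of_nodup_map hnd ha hb h

lemma Gam_disjoint (E : Finset (V × V)) (e : V × V) (x : V) (r : List V) (y y' : V)
    (hy : (x, y) ≠ e) (hyy : y ≠ y') :
    Disjoint (Gam E e (y :: x :: r)) (Gam E e (y' :: x :: r)) := by
  rw [Finset.disjoint_left]
  intro S hS hS'
  obtain ⟨_, _, q, hq, hSq⟩ := (mem_Gam _ _ _ _).1 hS
  obtain ⟨_, _, q', hq', hSq'⟩ := (mem_Gam _ _ _ _).1 hS'
  have h1 : (x, y) ∈ S := by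
    rw [hSq]
    apply Finset.mem_insert_of_mem
    rw [List.mem_toFinset]
    apply arcsR_append_right
    rw [arcsR_cons]; exact List.mem_cons_self
  have h2 : (x, y') ∈ arcsR (q' ++ y' :: x :: r) := by
    apply arcsR_append_right
    rw [arcsR_cons]; exact List.mem_cons_self
  rw [hSq', Finset.mem_insert, List.mem_toFinset] at h1
  rcases h1 with h1 | h1
  · exact hy h1
  · have := arcsR_fst_inj _ hq' _ _ h1 h2 rfl
    exact hyy (Prod.ext_iff.1 this).2

lemma Gam_subset (E : Finset (V × V)) (e : V × V) (y : V) (r : List V) :
    Gam E e (y :: r) ⊆ Gam E e r := by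
  intro S hS
  obtain ⟨h1, h2, q, hq, hSq⟩ := (mem_Gam _ _ _ _).1 hS
  refine (mem_Gam _ _ _ _).2 ⟨h1, h2, q ++ [y], ?_, ?_⟩
  · simpa using hq
  · simpa using hSq

lemma le_card_Gam (nb : V → List V) (hnb : ∀ x, (nb x).Nodup) (E : Finset (V × V))
    (hE : ∀ x y, y ∈ nb x → (x, y) ∈ E) (u v : V) (huv : (u, v) ∈ E) (f : ℕ) :
    ∀ (x : V) (r : List V), r ≠ [] → (x :: r).Nodup →
      (x :: r).getLast (List.cons_ne_nil _ _) = u →
      (∀ a ∈ arcsR (x :: r), a ∈ E) → (u, v) ∉ arcsR (x :: r) →
      cntL nb v f x (x :: r) ≤ (Gam E (u, v) (x :: r)).card := by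
  induction f with
  | zero => intro x r _ _ _ _ _; simp [cntL]
  | succ f ih =>
    intro x r hr0 hnd hlast harcs hne
    have hxu : x ≠ u := by
      rintro rfl
      rw [List.getLast_cons hr0] at hlast
      have : x ∈ r := by rw [← hlast]; exact List.getLast_mem hr0
      exact (List.nodup_cons.1 hnd).1 this
    rw [cntL]
    split_ifs with hx
    · subst hx
      rw [Nat.one_le_iff_ne_zero, ← Nat.pos_iff_ne_zero, Finset.card_pos]
      refine ⟨insert (u, x) (arcsR (x :: r)).toFinset, (mem_Gam _ _ _ _).2 ⟨?_, ?_, [], ?_, ?_⟩⟩
      · exact isCyc_close E u x huv r hnd hlast harcs hne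
      · exact Finset.mem_insert_self _ _
      · simpa using hnd
      · simp
    · rw [← sum_toFinset_filter (nb x) (hnb x) (x :: r) (fun y => cntL nb v f y (y :: x :: r))]
      have hxe : ∀ y, (x, y) ≠ (u, v) := fun y h => hxu (Prod.ext_iff.1 h).1
      have h1 : ∑ y ∈ (nb x).toFinset.filter (fun y => y ∉ x :: r),
          cntL nb v f y (y :: x :: r) ≤
          ∑ y ∈ (nb x).toFinset.filter (fun y => y ∉ x :: r),
          (Gam E (u, v) (y :: x :: r)).card := by
        refine Finset.sum_le_sum ?_
        intro y hy
        rw [Finset.mem_filter, List.mem_toFinset] at hy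
        refine ih y (x :: r) (List.cons_ne_nil _ _) (List.nodup_cons.2 ⟨hy.2, hnd⟩) ?_ ?_ ?_
        · rw [List.getLast_cons (List.cons_ne_nil _ _)]; exact hlast
        · intro a ha
          rw [arcsR_cons, List.mem_cons] at ha
          rcases ha with ha | ha
          · rw [ha]; exact hE x y hy.1
          · exact harcs a ha
        · rw [arcsR_cons, List.mem_cons, not_or]
          exact ⟨fun h => hxe y h.symm, hne⟩
      refine h1.trans ?_
      rw [← Finset.card_biUnion]
      · apply Finset.card_le_card
        intro S hS
        rw [Finset.mem_biUnion] at hS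
        obtain ⟨y, _, hS⟩ := hS
        exact Gam_subset _ _ _ _ hS
      · intro y _ y' _ hyy
        exact Gam_disjoint E (u, v) x r y y' (hxe y) hyy

/-- The cycles through the reversed arc `(u, v)` are at least as many as the paths from `u` to `v`
other than the arc itself. -/
lemma le_card_Gam_start (nb : V → List V) (hnb : ∀ x, (nb x).Nodup) (E : Finset (V × V))
    (hE : ∀ x y, y ∈ nb x → (x, y) ∈ E) (hloop : ∀ x, x ∉ nb x) (u v : V) (huv : v ∈ nb u)
    (f : ℕ) :
    cntL nb v (f + 1) u [u] ≤ (Gam E (u, v) [u]).card + 1 := by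
  have huv' : u ≠ v := by rintro rfl; exact hloop u huv
  rw [cntL, if_neg huv', ← sum_toFinset_filter (nb u) (hnb u) [u] (fun y => cntL nb v f y [y, u])]
  have hvmem : v ∈ (nb u).toFinset.filter (fun y => y ∉ [u]) := by
    rw [Finset.mem_filter, List.mem_toFinset]
    exact ⟨huv, by simpa using huv'.symm⟩
  rw [← Finset.add_sum_erase _ _ hvmem]
  have h0 : cntL nb v f v [v, u] ≤ 1 := by
    cases f with
    | zero => simp [cntL]
    | succ f => simp [cntL]
  have h1 : ∑ y ∈ ((nb u).toFinset.filter (fun y => y ∉ [u])).erase v, cntL nb v f y [y, u] ≤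
      ∑ y ∈ ((nb u).toFinset.filter (fun y => y ∉ [u])).erase v,
        (Gam E (u, v) [y, u]).card := by
    refine Finset.sum_le_sum ?_
    intro y hy
    rw [Finset.mem_erase, Finset.mem_filter, List.mem_toFinset] at hy
    refine le_card_Gam nb hnb E hE u v (hE u v huv) f y [u] (List.cons_ne_nil _ _)
      (List.nodup_cons.2 ⟨hy.2.2, by simp⟩) (by simp) ?_ ?_
    · intro a ha
      simp only [arcsR, List.tail_cons, List.zip_cons_cons, List.zip_nil_left,
        List.mem_singleton] at ha
      rw [ha]; exact hE u y hy.2.1
    · simp only [arcsR, List.tail_cons, List.zip_cons_cons, List.zip_nil_left,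
        List.mem_singleton, Prod.mk.injEq, not_and]
      intro _ h
      exact hy.1 h.symm
  have h2 : ∑ y ∈ ((nb u).toFinset.filter (fun y => y ∉ [u])).erase v,
        (Gam E (u, v) [y, u]).card ≤ (Gam E (u, v) [u]).card := by
    rw [← Finset.card_biUnion]
    · apply Finset.card_le_card
      intro S hS
      rw [Finset.mem_biUnion] at hS
      obtain ⟨y, _, hS⟩ := hS
      exact Gam_subset _ _ _ _ hS
    · intro y hy y' _ hyy
      refine Gam_disjoint E (u, v) u [] y y' ?_ hyy
      intro h
      have := (Finset.mem_erase.1 (Finset.mem_coe.1 hy)).1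
      exact this (Prod.ext_iff.1 h).2
  omega

/-- The comparison of the numbers of cycles. -/
lemma ncard_le (nb : V → List V) (hnb : ∀ x, (nb x).Nodup) (hloop : ∀ x, x ∉ nb x)
    (E : Finset (V × V)) (hE : ∀ x y, (x, y) ∈ E ↔ y ∈ nb x) (u v : V) (huv : v ∈ nb u)
    (f : ℕ) (hf : Fintype.card V ≤ f)
    (hcount : cntL nb u f v [v] + 1 ≤ cntL nb v (f + 1) u [u]) :
    {S | IsCyc Prod.fst Prod.snd E S}.ncard ≤ {S | IsCyc (sE (u, v)) (tE (u, v)) E S}.ncard := by
  have hX : {S | IsCyc Prod.fst Prod.snd E S} =
      {S | IsCyc Prod.fst Prod.snd E S ∧ (u, v) ∉ S} ∪ ↑(Fam E (u, v) [v]) := by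
    ext S
    simp only [Set.mem_union, Set.mem_ofPred_eq, Finset.mem_coe, mem_Fam]
    constructor
    · intro h
      by_cases he : (u, v) ∈ S
      · exact Or.inr ⟨h, he, by simp [arcsR]⟩
      · exact Or.inl ⟨h, he⟩
    · rintro (h | h)
      · exact h.1
      · exact h.1
  have hY : {S | IsCyc Prod.fst Prod.snd E S ∧ (u, v) ∉ S} ∪ ↑(Gam E (u, v) [u]) ⊆
      {S | IsCyc (sE (u, v)) (tE (u, v)) E S} := by
    rintro S (⟨h, he⟩ | h)
    · refine (isCyc_congr _ _ _ _ E S ?_ ?_).1 h
      · intro a ha
        rw [sE_of_ne]
        rintro rfl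
        exact he ha
      · intro a ha
        rw [tE_of_ne]
        rintro rfl
        exact he ha
    · exact ((mem_Gam _ _ _ _).1 (Finset.mem_coe.1 h)).1
  have hfin : ∀ s : Set (Finset (V × V)), s.Finite := fun s => Set.toFinite s
  have h1 : {S | IsCyc Prod.fst Prod.snd E S}.ncard ≤
      {S | IsCyc Prod.fst Prod.snd E S ∧ (u, v) ∉ S}.ncard + (Fam E (u, v) [v]).card := by
    rw [hX]
    refine (Set.ncard_union_le _ _).trans ?_
    rw [Set.ncard_coe_finset]
  have h2 : ({S | IsCyc Prod.fst Prod.snd E S ∧ (u, v) ∉ S} ∪ ↑(Gam E (u, v) [u])).ncard =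
      {S | IsCyc Prod.fst Prod.snd E S ∧ (u, v) ∉ S}.ncard + (Gam E (u, v) [u]).card := by
    rw [Set.ncard_union_eq ?_ (hfin _) (hfin _), Set.ncard_coe_finset]
    rw [Set.disjoint_left]
    rintro S ⟨_, he⟩ h
    exact he ((mem_Gam _ _ _ _).1 (Finset.mem_coe.1 h)).2.1
  have h3 := Set.ncard_le_ncard hY (hfin _)
  have h4 := card_Fam_le nb hnb E (fun x y h => (hE x y).1 h) u v f v [] (by simp) (by simp)
    (by simp; omega)
  have h5 := le_card_Gam_start nb hnb E (fun x y h => (hE x y).2 h) hloop u v huv f
  omega

/-- The path count is invariant under automorphisms. -/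
lemma cntL_map (nb : V → List V) (φ : V ≃ V) (hφ : ∀ x, (nb (φ x)).Perm ((nb x).map φ)) (t : V)
    (f : ℕ) : ∀ (x : V) (r : List V), cntL nb (φ t) f (φ x) (r.map φ) = cntL nb t f x r := by
  induction f with
  | zero => intro x r; simp [cntL]
  | succ f ih =>
    intro x r
    rw [cntL, cntL]
    by_cases hx : x = t
    · simp [hx]
    · rw [if_neg (fun h => hx (φ.injective h)), if_neg hx, ((hφ x).map _).sum_eq, List.map_map]
      congr 1
      apply List.map_congr_left
      intro y _
      simp only [Function.comp]
      have h1 := ih y (y :: r)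
      rw [List.map_cons] at h1
      rw [h1]
      have h2 : φ y ∈ r.map φ ↔ y ∈ r := by
        rw [List.mem_map]
        constructor
        · rintro ⟨z, hz, hzy⟩
          rwa [← φ.injective hzy]
        · intro h; exact ⟨y, h, rfl⟩
      by_cases h3 : y ∈ r
      · rw [if_pos h3, if_pos (h2.2 h3)]
      · rw [if_neg h3, if_neg (fun h => h3 (h2.1 h))]

end lower

end Pool.Agent.Lib_helper63.AdamCount
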