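import Pool.Agent.Lib_helper63.AdamCount

/-!
A strict digraph with 25 vertices and 60 arcs in which the reversal of any arc does not lower the
number of directed cycles. The vertices form five layers of five vertices; the rotation of all the
layers is an automorphism. The file contains the digraph and the count of its simple paths.
-/

set_option autoImplicit false

namespace Pool.Agent.Lib_helper63.AdamData

open Pool.Agent.Lib_helper63.AdamCount

/-- Lists of out-neighbours. -/
def table : List (List (Fin 25)) :=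
  [[1, 3, 5], [2, 4, 6], [0, 3, 7], [1, 4, 8], [0, 2, 9],
   [1, 10], [2, 11], [3, 12], [4, 13], [0, 14],
   [7, 15], [8, 16], [9, 17], [5, 18], [6, 19],
   [12, 20], [13, 21], [14, 22], [10, 23], [11, 24],
   [16, 21, 23], [17, 22, 24], [18, 20, 23], [19, 21, 24], [15, 20, 22]]

/-- Out-neighbours of a vertex. -/
def nb (x : Fin 25) : List (Fin 25) := table.getD x.val []

/-- The same table as one number: 15 bits for each vertex, 5 bits for each out-neighbour, and 31
for no neighbour. -/
def NB : ℕ := 54448073681573623793567432606425394443283829685836554531940396406372768194464307326895563344336489861659691652193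

/-- The `i`-th out-neighbour of `x`. -/
def dec (x i : ℕ) : ℕ := Nat.land (Nat.shiftRight NB (Nat.add (Nat.mul 15 x) (Nat.mul 5 i))) 31

/-- One branch of the search. -/
def slot (ih : ℕ → ℕ → ℕ) (vis y : ℕ) : ℕ :=
  cond (Nat.beq (Nat.land (Nat.shiftRight vis y) 1) 1) 0 (ih (Nat.lor vis (Nat.shiftLeft 1 y)) y)

/-- The number of simple paths, with the visited vertices stored as a bit mask. -/
def cntN (t f : ℕ) : ℕ → ℕ → ℕ :=
  Nat.rec (fun _ _ => 0) (fun _ ih vis x =>
    cond (Nat.beq x t) 1
      (Nat.add (Nat.add (slot ih vis (dec x 0)) (slot ih vis (dec x 1))) (slot ih vis (dec x 2)))) f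

/-- The mask `vis` represents the list `r`. -/
def Rep (vis : ℕ) (r : List (Fin 25)) : Prop :=
  vis.testBit 31 = true ∧ ∀ y : Fin 25, vis.testBit y.val = true ↔ y ∈ r

lemma nbeq (a b : ℕ) : Nat.beq a b = true ↔ a = b := by
  constructor
  · exact Nat.eq_of_beq_eq_true
  · rintro rfl
    exact Nat.beq_refl _

lemma beq_testBit (vis y : ℕ) :
    Nat.beq (Nat.land (Nat.shiftRight vis y) 1) 1 = vis.testBit y := by
  have h1 : Nat.land (Nat.shiftRight vis y) 1 = (vis >>> y) &&& 1 := rfl
  rw [h1, Nat.and_one_is_mod, Nat.testBit_eq_decide_div_mod_eq, Nat.shiftRight_eq_div_pow]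
  rw [Bool.eq_iff_iff, nbeq, decide_eq_true_eq]

lemma rep_cons (vis : ℕ) (r : List (Fin 25)) (h : Rep vis r) (y : Fin 25) :
    Rep (Nat.lor vis (Nat.shiftLeft 1 y.val)) (y :: r) := by
  have h1 : Nat.lor vis (Nat.shiftLeft 1 y.val) = vis ||| 2 ^ y.val := by
    have : Nat.shiftLeft 1 y.val = 2 ^ y.val := by
      change 1 <<< y.val = 2 ^ y.val
      rw [Nat.shiftLeft_eq, one_mul]
    rw [this]; rfl
  rw [h1]
  refine ⟨?_, ?_⟩
  · rw [Nat.testBit_or, h.1]; simp
  · intro z
    rw [Nat.testBit_or, Nat.testBit_two_pow, Bool.or_eq_true, h.2 z, List.mem_cons,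
      decide_eq_true_eq]
    constructor
    · rintro (h2 | h2)
      · exact Or.inr h2
      · exact Or.inl (Fin.ext h2.symm)
    · rintro (h2 | h2)
      · exact Or.inr (by rw [h2])
      · exact Or.inl h2

lemma decs : ∀ x : Fin 25, [dec x.val 0, dec x.val 1, dec x.val 2] =
    (nb x).map (fun y => y.val) ++ List.replicate (3 - (nb x).length) 31 := by
  decide +kernel

lemma sum_decs (x : Fin 25) (g : ℕ → ℕ) (hg : g 31 = 0) :
    Nat.add (Nat.add (g (dec x.val 0)) (g (dec x.val 1))) (g (dec x.val 2)) =
      ((nb x).map (fun y => g y.val)).sum := by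
  have h := congrArg (fun l => (l.map g).sum) (decs x)
  simp only [List.map_cons, List.map_nil, List.sum_cons, List.sum_nil, List.map_append,
    List.sum_append, List.map_replicate, List.sum_replicate, hg, smul_zero, add_zero,
    List.map_map] at h
  change (g (dec x.val 0) + g (dec x.val 1)) + g (dec x.val 2) = _
  rw [add_assoc, h]
  rfl

/-- The fast count agrees with the abstract one. -/
lemma cntN_eq (t : Fin 25) (f : ℕ) : ∀ (vis : ℕ) (r : List (Fin 25)) (x : Fin 25), Rep vis r →
    cntN t.val f vis x.val = cntL nb t f x r := by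
  induction f with
  | zero => intro vis r x _; rfl
  | succ f ih =>
    intro vis r x h
    have h1 : cntN t.val (f + 1) vis x.val = cond (Nat.beq x.val t.val) 1
      (Nat.add (Nat.add (slot (cntN t.val f) vis (dec x.val 0)) (slot (cntN t.val f) vis
        (dec x.val 1))) (slot (cntN t.val f) vis (dec x.val 2))) := rfl
    rw [h1, cntL]
    by_cases hx : x = t
    · have h2 : Nat.beq x.val t.val = true := by rw [nbeq, hx]
      rw [h2, if_pos hx]; rfl
    · have h2 : Nat.beq x.val t.val = false := by
        rw [Bool.eq_false_iff, Ne, nbeq]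
        exact fun h => hx (Fin.ext h)
      rw [h2, if_neg hx]
      change Nat.add (Nat.add (slot (cntN t.val f) vis (dec x.val 0)) (slot (cntN t.val f) vis
        (dec x.val 1))) (slot (cntN t.val f) vis (dec x.val 2)) = _
      rw [sum_decs x (slot (cntN t.val f) vis)]
      · congr 1
        apply List.map_congr_left
        intro y _
        unfold slot
        rw [beq_testBit]
        by_cases hy : y ∈ r
        · rw [(h.2 y).2 hy, if_pos hy]; rfl
        · have h3 : vis.testBit y.val = false := by
            rw [Bool.eq_false_iff]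
            exact fun h4 => hy ((h.2 y).1 h4)
          rw [h3, if_neg hy]
          exact ih _ _ y (rep_cons vis r h y)
      · unfold slot
        rw [beq_testBit, h.1]; rfl

lemma rep_single (x : Fin 25) : Rep (2 ^ 31 + 2 ^ x.val) [x] := by
  revert x
  unfold Rep
  decide +kernel

/-- The comparison to be checked for the arc `(u, v)`. -/
def Good (u v : Fin 25) : Prop := cntL nb u 25 v [v] + 1 ≤ cntL nb v 26 u [u]

lemma good_of_chk (u v : Fin 25) (h : Nat.ble (Nat.succ (cntN u.val 25 (2 ^ 31 + 2 ^ v.val) v.val))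
    (cntN v.val 26 (2 ^ 31 + 2 ^ u.val) u.val) = true) : Good u v := by
  unfold Good
  rw [← cntN_eq u 25 (2 ^ 31 + 2 ^ v.val) [v] v (rep_single v),
    ← cntN_eq v 26 (2 ^ 31 + 2 ^ u.val) [u] u (rep_single u)]
  exact Nat.le_of_ble_eq_true h

/-- The rotation of all the layers. -/
def rot : Fin 25 ≃ Fin 25 where
  toFun x := ⟨5 * (x.val / 5) + (x.val + 1) % 5, by omega⟩
  invFun x := ⟨5 * (x.val / 5) + (x.val + 4) % 5, by omega⟩
  left_inv := by decide +kernel
  right_inv := by decide +kernel

lemma nb_rot : ∀ x : Fin 25, (nb (rot x)).Perm ((nb x).map rot) := by decide +kernel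

lemma good_rot (u : Fin 25) (h : ∀ v ∈ nb u, Good u v) : ∀ v ∈ nb (rot u), Good (rot u) v := by
  intro v hv
  rw [(nb_rot u).mem_iff, List.mem_map] at hv
  obtain ⟨w, hw, rfl⟩ := hv
  have h1 := h w hw
  unfold Good at h1 ⊢
  have h2 := cntL_map nb rot nb_rot u 25 w [w]
  have h3 := cntL_map nb rot nb_rot w 26 u [u]
  rw [List.map_singleton] at h2 h3
  rw [h2, h3]
  exact h1

lemma good_0_1 : Good 0 1 :=
  good_of_chk 0 1 (by decide +kernel)

lemma good_0_3 : Good 0 3 :=
  good_of_chk 0 3 (by decide +kernel)

lemma good_0_5 : Good 0 5 :=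
  good_of_chk 0 5 (by decide +kernel)

lemma good_5_1 : Good 5 1 :=
  good_of_chk 5 1 (by decide +kernel)

lemma good_5_10 : Good 5 10 :=
  good_of_chk 5 10 (by decide +kernel)

lemma good_10_7 : Good 10 7 :=
  good_of_chk 10 7 (by decide +kernel)

lemma good_10_15 : Good 10 15 :=
  good_of_chk 10 15 (by decide +kernel)

lemma good_15_12 : Good 15 12 :=
  good_of_chk 15 12 (by decide +kernel)

lemma good_15_20 : Good 15 20 :=
  good_of_chk 15 20 (by decide +kernel)

lemma good_20_16 : Good 20 16 :=
  good_of_chk 20 16 (by decide +kernel)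

lemma good_20_21 : Good 20 21 :=
  good_of_chk 20 21 (by decide +kernel)

lemma good_20_23 : Good 20 23 :=
  good_of_chk 20 23 (by decide +kernel)

lemma good_0 : ∀ v ∈ nb 0, Good 0 v := by
  intro v hv
  have h : nb 0 = [1, 3, 5] := by decide +kernel
  rw [h] at hv
  simp only [List.mem_cons, List.not_mem_nil, or_false] at hv
  rcases hv with rfl | rfl | rfl
  · exact good_0_1
  · exact good_0_3
  · exact good_0_5

lemma good_5 : ∀ v ∈ nb 5, Good 5 v := by
  intro v hv
  have h : nb 5 = [1, 10] := by decide +kernel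
  rw [h] at hv
  simp only [List.mem_cons, List.not_mem_nil, or_false] at hv
  rcases hv with rfl | rfl
  · exact good_5_1
  · exact good_5_10

lemma good_10 : ∀ v ∈ nb 10, Good 10 v := by
  intro v hv
  have h : nb 10 = [7, 15] := by decide +kernel
  rw [h] at hv
  simp only [List.mem_cons, List.not_mem_nil, or_false] at hv
  rcases hv with rfl | rfl
  · exact good_10_7
  · exact good_10_15

lemma good_15 : ∀ v ∈ nb 15, Good 15 v := by
  intro v hv
  have h : nb 15 = [12, 20] := by decide +kernel
  rw [h] at hv
  simp only [List.mem_cons, List.not_mem_nil, or_false] at hv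
  rcases hv with rfl | rfl
  · exact good_15_12
  · exact good_15_20

lemma good_20 : ∀ v ∈ nb 20, Good 20 v := by
  intro v hv
  have h : nb 20 = [16, 21, 23] := by decide +kernel
  rw [h] at hv
  simp only [List.mem_cons, List.not_mem_nil, or_false] at hv
  rcases hv with rfl | rfl | rfl
  · exact good_20_16
  · exact good_20_21
  · exact good_20_23

lemma good_iter (u : Fin 25) (h : ∀ v ∈ nb u, Good u v) (j : ℕ) :
    ∀ v ∈ nb (rot^[j] u), Good (rot^[j] u) v := by
  induction j with
  | zero => exact h
  | succ j ih =>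
    rw [Function.iterate_succ_apply']
    exact good_rot _ ih

lemma reps : ∀ u : Fin 25, ∃ j : Fin 5, u = rot^[j.val] 0 ∨ u = rot^[j.val] 5 ∨
    u = rot^[j.val] 10 ∨ u = rot^[j.val] 15 ∨ u = rot^[j.val] 20 := by
  decide +kernel

/-- The comparison holds for every arc. -/
theorem good_all : ∀ u : Fin 25, ∀ v ∈ nb u, Good u v := by
  intro u
  obtain ⟨j, h | h | h | h | h⟩ := reps u
  · rw [h]; exact good_iter 0 good_0 j.val
  · rw [h]; exact good_iter 5 good_5 j.val
  · rw [h]; exact good_iter 10 good_10 j.val
  · rw [h]; exact good_iter 15 good_15 j.val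
  · rw [h]; exact good_iter 20 good_20 j.val

end Pool.Agent.Lib_helper63.AdamData
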